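import Mathlib

set_option autoImplicit false
open Polynomial FirstOrder FirstOrder.Language

/-!
# Freeness of subalgebras of free associative algebras is not axiomatizable

Let `R = k[X]`.  To an `R`-module `P` we attach the free algebra `Fr k P` on letters `z` and
`x_p` (`p` in `P`) and the subalgebra `AA k P` generated by `z`, all `x_p z`, and all
`∑ f_i(z) x_{p_i}` with `∑ f_i p_i = 0`.

* If `AA k P` is a free algebra, then `P` embeds into a free `R`-module (`retract`); the module
  `P = R^ℕ` does not (`no_embed`).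
* If `P` is free with a basis, then `AA k P` is a free algebra (`AA_free`).
* The pair of `R^(ℕ)` (finitely supported sequences) is an elementary substructure of the pair
  of `R^ℕ`: there are enough module automorphisms of `R^ℕ` (`move`).
-/

universe u

namespace Pool.Agent.Results.MP_cfda27_lc.FreeSubalgebra

/-- Function symbols of the unital signature. -/
inductive UFun (k : Type u) : ℕ → Type u
  | zero : UFun k 0
  | one : UFun k 0
  | neg : UFun k 1
  | smul (c : k) : UFun k 1
  | add : UFun k 2
  | mul : UFun k 2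

/-- Function symbols of the non-unital signature. -/
inductive NFun (k : Type u) : ℕ → Type u
  | zero : NFun k 0
  | neg : NFun k 1
  | smul (c : k) : NFun k 1
  | add : NFun k 2
  | mul : NFun k 2

/-- The unary predicate symbol `P`. -/
inductive PRel : ℕ → Type
  | P : PRel 1

/-- The signature `L₁ ∪ {P}`. -/
def L1 (k : Type u) : FirstOrder.Language.{u, 0} := ⟨UFun k, PRel⟩

/-- The signature `L₀ ∪ {P}`. -/
def L0 (k : Type u) : FirstOrder.Language.{u, 0} := ⟨NFun k, PRel⟩

/-- The pair `(F, A)` as a structure for `L1 k`, unital convention. -/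
@[reducible] def pair1 {k F : Type u} [Field k] [Ring F] [Algebra k F] (A : Subalgebra k F) :
    (L1 k).Structure F where
  funMap := fun {n} f xs => match n, f, xs with
    | _, UFun.zero, _ => 0
    | _, UFun.one, _ => 1
    | _, UFun.neg, xs => - xs 0
    | _, UFun.smul c, xs => c • xs 0
    | _, UFun.add, xs => xs 0 + xs 1
    | _, UFun.mul, xs => xs 0 * xs 1
  RelMap := fun {n} r xs => match n, r, xs with
    | _, PRel.P, xs => xs 0 ∈ A

/-- The pair `(F, A)` as a structure for `L0 k`, non-unital convention. -/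
@[reducible] def pair0 {k F : Type u} [Field k] [NonUnitalRing F] [Module k F]
    (A : NonUnitalSubalgebra k F) : (L0 k).Structure F where
  funMap := fun {n} f xs => match n, f, xs with
    | _, NFun.zero, _ => 0
    | _, NFun.neg, xs => - xs 0
    | _, NFun.smul c, xs => c • xs 0
    | _, NFun.add, xs => xs 0 + xs 1
    | _, NFun.mul, xs => xs 0 * xs 1
  RelMap := fun {n} r xs => match n, r, xs with
    | _, PRel.P, xs => xs 0 ∈ A

/-- Freeness, unital convention: `F` is isomorphic to the free unital associative algebra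
`k⟨X⟩` on some set `X`. -/
def IsFree1 (k : Type u) [Field k] (F : Type u) [Ring F] [Algebra k F] : Prop :=
  ∃ X : Type u, Nonempty (F ≃ₐ[k] FreeAlgebra k X)


/-- The free non-unital associative algebra on `X`: the non-unital subalgebra of `k⟨X⟩` generated
by `X`, that is, the span of all nonempty words in `X`. -/
noncomputable def NF (k : Type u) [Field k] (X : Type u) : NonUnitalSubalgebra k (FreeAlgebra k X) :=
  NonUnitalAlgebra.adjoin k (Set.range (FreeAlgebra.ι k))

/-- Freeness, non-unital convention: there is an isomorphism of non-unital algebras from `F` onto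
the free non-unital associative algebra on some set `X`. -/
def IsFree0 (k : Type u) [Field k] (F : Type u) [NonUnitalRing F] [Module k F] : Prop :=
  ∃ X : Type u, ∃ f : F →ₙₐ[k] NF k X, Function.Bijective f

section part1

variable (k : Type u) [Field k]

/-- The big free algebra: one letter `none` (called `z`) and one letter for each element of `Q`. -/
abbrev Fr (Q : Type u) := FreeAlgebra k (Option Q)

variable {k} {Q : Type u} [AddCommGroup Q] [Module k[X] Q]

/-- the letter z -/
noncomputable def zz : Fr k Q := FreeAlgebra.ι k none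

/-- the letter x_q -/
noncomputable def xx (q : Q) : Fr k Q := FreeAlgebra.ι k (some q)

/-- `κ ↦ ∑ κ_q(z) x_q` -/
noncomputable def hat : (Q →₀ k[X]) →+ Fr k Q :=
  Finsupp.liftAddHom (fun q => (AddMonoidHom.mulRight (xx q)).comp
    (aeval (zz : Fr k Q)).toRingHom.toAddMonoidHom)

omit [AddCommGroup Q] [Module k[X] Q] in
theorem hat_single (q : Q) (f : k[X]) : (hat (Finsupp.single q f) : Fr k Q) =
    aeval zz f * xx q := by
  simp [hat]

omit [AddCommGroup Q] [Module k[X] Q] in
theorem hat_smul (f : k[X]) (κ : Q →₀ k[X]) : (hat (f • κ) : Fr k Q) = aeval zz f * hat κ := by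
  induction κ using Finsupp.induction_linear with
  | zero => simp
  | add a b ha hb => rw [smul_add, map_add, ha, hb, map_add, mul_add]
  | single q g => rw [Finsupp.smul_single, hat_single, hat_single, smul_eq_mul, map_mul, mul_assoc]

/-- the linear combination -/
noncomputable def lin : (Q →₀ k[X]) →ₗ[k[X]] Q := Finsupp.linearCombination k[X] (id : Q → Q)

theorem lin_single (q : Q) (f : k[X]) : lin (Finsupp.single q f) = f • q := by
  simp [lin]

variable (k Q) in
/-- index set of the generators of the subalgebra -/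
abbrev Wt := Q ⊕ {κ : Q →₀ k[X] // lin κ = 0}

variable (k Q) in
/-- The generators of the subalgebra: z, x_q z and the syzygies -/
noncomputable def gen : Option (Wt k Q) → Fr k Q
  | none => zz
  | some (Sum.inl q) => xx q * zz
  | some (Sum.inr κ) => hat κ.1

variable (k Q) in
noncomputable def rho : FreeAlgebra k (Option (Wt k Q)) →ₐ[k] Fr k Q :=
  FreeAlgebra.lift k (gen k Q)

variable (k Q) in
/-- The subalgebra. -/
noncomputable def AA : Subalgebra k (Fr k Q) := (rho k Q).range

theorem rho_none : rho k Q (FreeAlgebra.ι k none) = zz := by simp [rho, gen]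

theorem rho_inl (q : Q) : rho k Q (FreeAlgebra.ι k (some (Sum.inl q))) = xx q * zz := by
  simp [rho, gen]

theorem rho_inr (κ : {κ : Q →₀ k[X] // lin κ = 0}) :
    rho k Q (FreeAlgebra.ι k (some (Sum.inr κ))) = hat κ.1 := by
  simp [rho, gen]

theorem zz_mem : (zz : Fr k Q) ∈ AA k Q := ⟨_, rho_none⟩

theorem xz_mem (q : Q) : (xx q * zz : Fr k Q) ∈ AA k Q := ⟨_, rho_inl q⟩

theorem hat_mem (κ : Q →₀ k[X]) (h : lin κ = 0) : (hat κ : Fr k Q) ∈ AA k Q :=
  ⟨_, rho_inr ⟨κ, h⟩⟩

section action

variable {V : Type u} [AddCommGroup V] [Module k[X] V] [Module k V] [IsScalarTower k k[X] V]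

/-- z acts -/
noncomputable def opz : Module.End k (V × k) where
  toFun p := ((X : k[X]) • p.1, 0)
  map_add' p q := by simp
  map_smul' c p := by
    ext
    · exact smul_comm (X : k[X]) c p.1
    · simp

/-- letters act -/
noncomputable def opw (w : V) : Module.End k (V × k) where
  toFun p := (p.2 • w, 0)
  map_add' p q := by simp [add_smul]
  map_smul' c p := by
    ext
    · simp [mul_smul]
    · simp

/-- 3-step action of F on V × k × k -/
noncomputable def opz3 : Module.End k (V × k × k) where
  toFun p := ((X : k[X]) • p.1, p.2.2, 0)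
  map_add' p q := by simp
  map_smul' c p := by
    ext
    · exact smul_comm (X : k[X]) c p.1
    · simp
    · simp

noncomputable def opw3 (w : V) : Module.End k (V × k × k) where
  toFun p := (p.2.1 • w, 0, 0)
  map_add' p q := by simp [add_smul]
  map_smul' c p := by
    ext
    · simp [mul_smul]
    · simp
    · simp

end action

section free

variable [Module k Q] [IsScalarTower k k[X] Q]

variable (k Q) in
/-- `F` acts on `Q × k × k`. -/
noncomputable def act3 : Fr k Q →ₐ[k] Module.End k (Q × k × k) :=
  FreeAlgebra.lift k (fun o => match o with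
    | none => opz3
    | some q => opw3 q)

variable (k Q) in
/-- `T` acts on `(Wt →₀ k[X]) × k`. -/
noncomputable def actT : FreeAlgebra k (Option (Wt k Q)) →ₐ[k]
    Module.End k ((Wt k Q →₀ k[X]) × k) :=
  FreeAlgebra.lift k (fun o => match o with
    | none => opz
    | some w => opw (Finsupp.single w 1))

variable (k Q) in
/-- the projection -/
noncomputable def Lam : (Wt k Q →₀ k[X]) →ₗ[k[X]] Q :=
  Finsupp.linearCombination k[X] (Sum.elim id (fun _ => 0))

theorem act3_zz (p : Q × k × k) : act3 k Q zz p = ((X : k[X]) • p.1, p.2.2, 0) := by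
  simp [act3, zz, opz3]

theorem act3_xx (q : Q) (p : Q × k × k) : act3 k Q (xx q) p = (p.2.1 • q, 0, 0) := by
  simp [act3, xx, opw3]

theorem act3_poly (f : k[X]) (q : Q) : act3 k Q (aeval zz f) (q, 0, 0) = (f • q, 0, 0) := by
  induction f using Polynomial.induction_on' with
  | add f g hf hg => rw [map_add, map_add, LinearMap.add_apply, hf, hg]; simp [add_smul]
  | monomial n c =>
    induction n with
    | zero =>
      rw [monomial_zero_left, aeval_C, AlgHom.commutes, Module.algebraMap_end_apply]
      ext
      · change c • q = C c • q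
        rw [← smul_one_smul k[X] c q, Polynomial.smul_eq_C_mul, mul_one]
      · simp
      · simp
    | succ n ih =>
      have : (monomial (n + 1) c : k[X]) = X * monomial n c := by
        rw [X_mul_monomial]
      rw [this, map_mul, map_mul, aeval_X, Module.End.mul_apply, ih, act3_zz]
      ext
      · exact (mul_smul _ _ _).symm
      · simp
      · simp

theorem act3_hat (κ : Q →₀ k[X]) (p : Q × k × k) :
    act3 k Q (hat κ) p = (p.2.1 • lin κ, 0, 0) := by
  induction κ using Finsupp.induction_linear with
  | zero => ext <;> simp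
  | add a b ha hb => rw [map_add, map_add, LinearMap.add_apply, ha, hb]; simp
  | single q g =>
    rw [hat_single, map_mul, Module.End.mul_apply, act3_xx, act3_poly, lin_single]
    ext
    · exact smul_comm g p.2.1 q
    · simp
    · simp

theorem actT_none (v : (Wt k Q →₀ k[X]) × k) :
    actT k Q (FreeAlgebra.ι k none) v = ((X : k[X]) • v.1, 0) := by
  simp [actT, opz]

theorem actT_some (w : Wt k Q) (v : (Wt k Q →₀ k[X]) × k) :
    actT k Q (FreeAlgebra.ι k (some w)) v = (v.2 • Finsupp.single w 1, 0) := by
  simp [actT, opw]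

/-- The two actions are compatible. -/
theorem compat (t : FreeAlgebra k (Option (Wt k Q))) : ∀ (p : Q × k × k)
    (v : (Wt k Q →₀ k[X]) × k), p.1 = Lam k Q v.1 → p.2.2 = v.2 →
    (act3 k Q (rho k Q t) p).1 = Lam k Q (actT k Q t v).1 ∧
    (act3 k Q (rho k Q t) p).2.2 = (actT k Q t v).2 := by
  induction t using FreeAlgebra.induction with
  | grade0 r =>
    intro p v h1 h2
    rw [AlgHom.commutes, AlgHom.commutes, AlgHom.commutes, Module.algebraMap_end_apply,
      Module.algebraMap_end_apply]
    constructor
    · change r • p.1 = Lam k Q (r • v.1)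
      rw [h1]
      exact ((Lam k Q).restrictScalars k).map_smul r v.1 |>.symm
    · change r • p.2.2 = r • v.2
      rw [h2]
  | grade1 o =>
    intro p v h1 h2
    rcases o with _ | (q | κ)
    · rw [rho_none, act3_zz, actT_none]
      refine ⟨?_, rfl⟩
      change (X : k[X]) • p.1 = Lam k Q ((X : k[X]) • v.1)
      rw [map_smul, h1]
    · rw [rho_inl, map_mul, Module.End.mul_apply, act3_zz, act3_xx, actT_some]
      refine ⟨?_, rfl⟩
      change p.2.2 • q = Lam k Q (v.2 • Finsupp.single (Sum.inl q) 1)
      rw [h2]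
      have := ((Lam k Q).restrictScalars k).map_smul v.2 (Finsupp.single (Sum.inl q) 1)
      have h3 : Lam k Q (v.2 • Finsupp.single (Sum.inl q) 1) =
        v.2 • Lam k Q (Finsupp.single (Sum.inl q) 1) := this
      rw [h3]
      simp [Lam]
    · rw [rho_inr, act3_hat, actT_some, κ.2]
      refine ⟨?_, rfl⟩
      change p.2.1 • (0 : Q) = Lam k Q (v.2 • Finsupp.single (Sum.inr κ) 1)
      have := ((Lam k Q).restrictScalars k).map_smul v.2 (Finsupp.single (Sum.inr κ) 1)
      have h3 : Lam k Q (v.2 • Finsupp.single (Sum.inr κ) 1) =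
        v.2 • Lam k Q (Finsupp.single (Sum.inr κ) 1) := this
      rw [h3]
      simp [Lam]
  | mul a b ha hb =>
    intro p v h1 h2
    rw [map_mul, map_mul, map_mul, Module.End.mul_apply, Module.End.mul_apply]
    obtain ⟨h3, h4⟩ := hb p v h1 h2
    exact ha _ _ h3 h4
  | add a b ha hb =>
    intro p v h1 h2
    rw [map_add, map_add, map_add, LinearMap.add_apply, LinearMap.add_apply]
    obtain ⟨h3, h4⟩ := ha p v h1 h2
    obtain ⟨h5, h6⟩ := hb p v h1 h2
    constructor
    · rw [Prod.fst_add, Prod.fst_add, map_add, h3, h5]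
    · rw [Prod.snd_add, Prod.snd_add, Prod.snd_add, h4, h6]

variable (k Q) in
/-- augmentation of F -/
noncomputable def augF : Fr k Q →ₐ[k] k[X] :=
  FreeAlgebra.lift k (fun o => match o with
    | none => X
    | some _ => 0)

variable (k Q) in
/-- augmentation of T -/
noncomputable def augT : FreeAlgebra k (Option (Wt k Q)) →ₐ[k] k[X] :=
  FreeAlgebra.lift k (fun o => match o with
    | none => X
    | some _ => 0)

theorem augF_zz : augF k Q zz = X := by simp [augF, zz]

theorem augF_xx (q : Q) : augF k Q (xx q) = 0 := by simp [augF, xx]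

theorem augF_hat (κ : Q →₀ k[X]) : augF k Q (hat κ) = 0 := by
  induction κ using Finsupp.induction_linear with
  | zero => simp
  | add a b ha hb => rw [map_add, map_add, ha, hb, add_zero]
  | single q g => rw [hat_single, map_mul, augF_xx, mul_zero]

theorem augF_rho (t : FreeAlgebra k (Option (Wt k Q))) : augF k Q (rho k Q t) = augT k Q t := by
  have : (augF k Q).comp (rho k Q) = augT k Q := by
    apply FreeAlgebra.hom_ext
    funext o
    rcases o with _ | (q | κ)
    · simp only [Function.comp, AlgHom.comp_apply, rho_none, augF_zz]; simp [augT]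
    · simp only [Function.comp, AlgHom.comp_apply, rho_inl, map_mul, augF_xx, zero_mul]
      simp [augT]
    · simp only [Function.comp, AlgHom.comp_apply, rho_inr, augF_hat]; simp [augT]
  rw [← this]
  rfl

theorem actT_aug (t : FreeAlgebra k (Option (Wt k Q))) : ∀ (v : (Wt k Q →₀ k[X])),
    actT k Q t (v, 0) = (augT k Q t • v, 0) := by
  induction t using FreeAlgebra.induction with
  | grade0 r =>
    intro v
    rw [AlgHom.commutes, AlgHom.commutes, Module.algebraMap_end_apply]
    ext1
    · change r • v = algebraMap k k[X] r • v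
      rw [algebraMap_smul]
    · simp
  | grade1 o =>
    intro v
    rcases o with _ | w
    · rw [actT_none]; simp [augT]
    · rw [actT_some]; simp [augT]
  | mul a b ha hb =>
    intro v
    rw [map_mul, map_mul, Module.End.mul_apply, hb, ha, mul_smul]
  | add a b ha hb =>
    intro v
    rw [map_add, map_add, LinearMap.add_apply, hb, ha, add_smul]
    simp

theorem actT_snd (t : FreeAlgebra k (Option (Wt k Q))) : ∀ (v : (Wt k Q →₀ k[X]) × k),
    (actT k Q t v).2 = (augT k Q t).coeff 0 * v.2 := by
  induction t using FreeAlgebra.induction with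
  | grade0 r =>
    intro v
    rw [AlgHom.commutes, AlgHom.commutes, Module.algebraMap_end_apply]
    simp
  | grade1 o =>
    intro v
    rcases o with _ | w
    · rw [actT_none]; simp [augT]
    · rw [actT_some]; simp [augT]
  | mul a b ha hb =>
    intro v
    rw [map_mul, map_mul, Module.End.mul_apply, ha, hb, mul_coeff_zero, mul_assoc]
  | add a b ha hb =>
    intro v
    rw [map_add, map_add, LinearMap.add_apply, Prod.snd_add, hb, ha, coeff_add, add_mul]

/-- A section of `T → A` makes `Q` projective. -/
theorem retract (s : AA k Q →ₐ[k] FreeAlgebra k (Option (Wt k Q)))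
    (hs : ∀ a, rho k Q (s a) = a.1) :
    ∃ φ : Q →ₗ[k[X]] (Wt k Q →₀ k[X]), Function.Injective φ := by
  let Z : AA k Q := ⟨zz, zz_mem⟩
  let XZ : Q → AA k Q := fun q => ⟨xx q * zz, xz_mem q⟩
  let φ : Q → (Wt k Q →₀ k[X]) := fun q => (actT k Q (s (XZ q)) (0, 1)).1
  have hXZ : ∀ q, actT k Q (s (XZ q)) (0, 1) = (φ q, 0) := by
    intro q
    ext1
    · rfl
    · rw [actT_snd, ← augF_rho, hs]
      simp [XZ, augF_xx]
  have hZ : ∃ d, actT k Q (s Z) (0, 1) = (d, 0) := by
    refine ⟨(actT k Q (s Z) (0, 1)).1, ?_⟩
    ext1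
    · rfl
    · rw [actT_snd, ← augF_rho, hs]
      simp [Z, augF_zz]
  have key : ∀ κ : Q →₀ k[X], lin κ = 0 → κ.sum (fun q f => f • φ q) = 0 := by
    intro κ hκ
    let H : AA k Q := ⟨hat κ, hat_mem κ hκ⟩
    have h1 : H * Z = κ.sum (fun q f => aeval Z f * XZ q) := by
      apply Subtype.ext
      have e1 : (H * Z : AA k Q).1 = hat κ * zz := rfl
      rw [e1]
      have e2 : (κ.sum (fun q f => aeval Z f * XZ q) : AA k Q).1 =
          κ.sum (fun q f => (aeval (zz : Fr k Q) f * (xx q * zz))) := by
        rw [Finsupp.sum, Finsupp.sum, AddSubmonoidClass.coe_finsetSum]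
        apply Finset.sum_congr rfl
        intro q _
        change (aeval Z (κ q)).1 * (xx q * zz) = _
        congr 1
        exact (Polynomial.aeval_algHom_apply (AA k Q).val Z (κ q)).symm
      rw [e2]
      clear hκ H e1 e2
      induction κ using Finsupp.induction_linear with
      | zero => simp
      | add a b ha hb =>
        rw [map_add, add_mul, ha, hb, Finsupp.sum_add_index']
        · intro q; simp
        · intro q f g; simp [add_mul]
      | single q g => rw [hat_single, Finsupp.sum_single_index (by simp), mul_assoc]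
    have h2 : (actT k Q (s (H * Z)) (0, 1)).1 =
        (actT k Q (s (κ.sum (fun q f => aeval Z f * XZ q))) (0, 1)).1 := by rw [h1]
    rw [map_mul, map_mul, Module.End.mul_apply] at h2
    obtain ⟨d, hd⟩ := hZ
    rw [hd, actT_aug, ← augF_rho, hs] at h2
    have h3 : augF k Q H.1 = 0 := augF_hat κ
    rw [h3, zero_smul] at h2
    have h4 : actT k Q (s (κ.sum (fun q f => aeval Z f * XZ q))) (0, 1) =
        κ.sum (fun q f => (f • φ q, 0)) := by
      rw [Finsupp.sum, Finsupp.sum, map_sum, map_sum, LinearMap.sum_apply]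
      apply Finset.sum_congr rfl
      intro q _
      rw [map_mul, map_mul, Module.End.mul_apply, hXZ, actT_aug, ← augF_rho, hs]
      have : (aeval Z (κ q) : AA k Q).1 = aeval (zz : Fr k Q) (κ q) :=
        (Polynomial.aeval_algHom_apply (AA k Q).val Z (κ q)).symm
      rw [this, ← Polynomial.aeval_algHom_apply, augF_zz, aeval_X_left_apply]
    rw [h4] at h2
    rw [Finsupp.sum] at h2 ⊢
    have h5 := h2.symm
    rw [Prod.fst_sum] at h5
    exact h5
  let Φ : Q →ₗ[k[X]] (Wt k Q →₀ k[X]) :=
    { toFun := φ
      map_add' := by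
        intro p q
        have := key (Finsupp.single (p + q) 1 - Finsupp.single p 1 - Finsupp.single q 1)
          (by simp [lin_single])
        rw [Finsupp.sum_sub_index, Finsupp.sum_sub_index, Finsupp.sum_single_index,
          Finsupp.sum_single_index, Finsupp.sum_single_index] at this
        · simp only [one_smul] at this
          rw [sub_sub, sub_eq_zero] at this
          exact this
        all_goals simp [sub_smul]
      map_smul' := by
        intro f q
        have := key (Finsupp.single (f • q) 1 - Finsupp.single q f)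
          (by simp [lin_single])
        rw [Finsupp.sum_sub_index, Finsupp.sum_single_index, Finsupp.sum_single_index] at this
        · simp only [one_smul] at this
          rw [sub_eq_zero] at this
          exact this
        all_goals simp [sub_smul] }
  refine ⟨Φ, ?_⟩
  have hΛ : ∀ q, Lam k Q (φ q) = q := by
    intro q
    have := (compat (s (XZ q)) (0, 0, 1) (0, 1) (by simp) rfl).1
    rw [hs] at this
    change (act3 k Q (xx q * zz) (0, 0, 1)).1 = Lam k Q (φ q) at this
    rw [← this, map_mul, Module.End.mul_apply, act3_zz, act3_xx]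
    simp
  intro p q h
  have h' : φ p = φ q := h
  rw [← hΛ p, ← hΛ q, h']

end free

end part1

section part2

variable (k : Type u) [Field k]

theorem no_embed (W : Type u) (φ : (ℕ → k[X]) →ₗ[k[X]] (W →₀ k[X])) :
    ¬ Function.Injective φ := by
  classical
  intro hφ
  let e : ℕ → ℕ → k[X] := fun n => Pi.single n 1
  let W0 : Set W := ⋃ n, ((φ (e n)).support : Set W)
  have hW0 : W0.Countable := Set.countable_iUnion (fun n => (φ (e n)).support.countable_toSet)
  let x : (ℕ → k) → (ℕ → k[X]) := fun c n => C (c n) * X ^ n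
  have hzero : ∀ (c : ℕ → k) (w : W), w ∉ W0 → φ (x c) w = 0 := by
    intro c w hw
    have he : ∀ n, φ (e n) w = 0 := by
      intro n
      by_contra h
      exact hw (Set.mem_iUnion.2 ⟨n, Finsupp.mem_support_iff.2 h⟩)
    have hdvd : ∀ n, X ^ n ∣ φ (x c) w := by
      intro n
      let y : ℕ → k[X] := fun m => if m < n then 0 else C (c m) * X ^ (m - n)
      have hx : x c = (∑ j ∈ Finset.range n, (C (c j) * X ^ j : k[X]) • e j) + (X ^ n : k[X]) • y := by
        funext m
        simp only [x, y, e, Pi.add_apply, Finset.sum_apply, Pi.smul_apply, smul_eq_mul]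
        by_cases hm : m < n
        · rw [Finset.sum_eq_single m]
          · simp [hm]
          · intro b _ hb
            simp [hb.symm]
          · intro h
            exact absurd (Finset.mem_range.2 hm) h
        · rw [Finset.sum_eq_zero]
          · simp only [hm, if_false, zero_add]
            have : X ^ m = (X ^ n * X ^ (m - n) : k[X]) := by
              rw [← pow_add, Nat.add_sub_cancel' (not_lt.1 hm)]
            rw [this]; ring
          · intro j hj
            have : m ≠ j := by
              have := Finset.mem_range.1 hj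
              omega
            simp [this]
      rw [hx, map_add, Finsupp.add_apply, map_smul, Finsupp.smul_apply, map_sum,
        Finsupp.finsetSum_apply, Finset.sum_eq_zero, zero_add]
      · exact ⟨_, rfl⟩
      · intro j _
        rw [map_smul, Finsupp.smul_apply, he, smul_zero]
    by_contra h
    have h1 := hdvd ((φ (x c) w).natDegree + 1)
    have h2 := Polynomial.natDegree_le_of_dvd h1 h
    rw [natDegree_X_pow] at h2
    omega
  -- a k-linear injection of `ℕ → k` into a space of countable dimension
  let ψ : (ℕ → k) →ₗ[k] (W0 →₀ k[X]) :=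
    { toFun := fun c => (φ (x c)).comapDomain Subtype.val Subtype.val_injective.injOn
      map_add' := by
        intro c d
        ext w : 1
        have : x (c + d) = x c + x d := by
          funext n; simp [x, add_mul]
        simp only [Finsupp.comapDomain_apply, Finsupp.add_apply, this, map_add]
      map_smul' := by
        intro a c
        ext w : 1
        have : x (a • c) = (C a : k[X]) • x c := by
          funext n; simp [x, mul_assoc]
        simp only [Finsupp.comapDomain_apply, Finsupp.smul_apply, this, map_smul,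
          RingHom.id_apply]
        rw [smul_eq_mul, Polynomial.smul_eq_C_mul] }
  have hψ : Function.Injective ψ := by
    intro c d hcd
    have h1 : φ (x c) = φ (x d) := by
      ext w : 1
      by_cases hw : w ∈ W0
      · have := DFunLike.congr_fun hcd ⟨w, hw⟩
        simpa [ψ] using this
      · rw [hzero c w hw, hzero d w hw]
    have h2 := hφ h1
    funext n
    have h3 := congrFun h2 n
    simp only [x] at h3
    have h4 := congrArg (fun f => f.coeff n) h3
    simpa using h4
  have h1 := LinearMap.rank_le_of_injective ψ hψ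
  rw [rank_fun_infinite] at h1
  have : Countable W0 := hW0.to_subtype
  have hb := (Finsupp.basis (fun _ : W0 => Polynomial.basisMonomials k)).mk_eq_rank
  have hc : Cardinal.mk (Σ _ : W0, ℕ) ≤ Cardinal.aleph0 := Cardinal.mk_le_aleph0
  have h2 : Module.rank k (W0 →₀ k[X]) ≤ Cardinal.aleph0 := by
    rw [← Cardinal.lift_le.{u}, ← hb]
    simpa using hc
  have h4 : Cardinal.mk (ℕ → Bool) = 2 ^ Cardinal.aleph0 := by simp
  have h5 : Countable (ℕ → k) := Cardinal.mk_le_aleph0_iff.1 (h1.trans h2)
  have h6 : Function.Injective (fun (b : ℕ → Bool) (n : ℕ) => (if b n then (1 : k) else 0)) := by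
    intro b c hbc
    funext n
    have := congrFun hbc n
    rcases hb : b n with _ | _ <;> rcases hc : c n with _ | _ <;> simp [hb, hc] at this ⊢
  have h7 : Countable (ℕ → Bool) := h6.countable
  have h8 : Cardinal.mk (ℕ → Bool) ≤ Cardinal.aleph0 := Cardinal.mk_le_aleph0
  rw [h4] at h8
  exact absurd h8 (not_le.2 (Cardinal.cantor _))

end part2

section part3

variable {k : Type u} [Field k]

section delta

variable {Y : Type u} (E : Set Y)

open Classical in
/-- the code -/
noncomputable def code (o : Option Y) : List (Option Y) :=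
  match o with
  | none => [none]
  | some y => if y ∈ E then [some y, none] else [some y]

theorem code_head (o : Option Y) : ∃ l, code E o = o :: l := by
  cases o with
  | none => exact ⟨[], rfl⟩
  | some y =>
    by_cases h : y ∈ E
    · exact ⟨[none], by simp [code, h]⟩
    · exact ⟨[], by simp [code, h]⟩

theorem flat_inj : ∀ l l' : List (Option Y), l.flatMap (code E) = l'.flatMap (code E) →
    l = l' := by
  intro l
  induction l with
  | nil =>
    intro l' h
    cases l' with
    | nil => rfl
    | cons b l' =>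
      obtain ⟨t, ht⟩ := code_head E b
      simp [ht] at h
  | cons a l ih =>
    intro l' h
    cases l' with
    | nil =>
      obtain ⟨t, ht⟩ := code_head E a
      simp [ht] at h
    | cons b l' =>
      have hab : a = b := by
        obtain ⟨t, ht⟩ := code_head E a
        obtain ⟨t', ht'⟩ := code_head E b
        simp only [List.flatMap_cons, ht, ht', List.cons_append, List.cons.injEq] at h
        exact h.1
      subst hab
      simp only [List.flatMap_cons] at h
      rw [ih l' (List.append_cancel_left h)]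

noncomputable def codeHom : FreeMonoid (Option Y) →* FreeMonoid (Option Y) :=
  FreeMonoid.lift (fun o => FreeMonoid.ofList (code E o))

theorem codeHom_toList (w : FreeMonoid (Option Y)) :
    FreeMonoid.toList (codeHom E w) = (FreeMonoid.toList w).flatMap (code E) := by
  induction w using FreeMonoid.inductionOn' with
  | one => simp
  | of_mul a w ih => simp [codeHom] at ih ⊢; rw [ih]

theorem codeHom_injective : Function.Injective (codeHom E) := by
  intro a b h
  apply FreeMonoid.toList.injective
  apply flat_inj E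
  rw [← codeHom_toList, ← codeHom_toList, h]

variable (k) in
open Classical in
noncomputable def delta : FreeAlgebra k (Option Y) →ₐ[k] FreeAlgebra k (Option Y) :=
  FreeAlgebra.lift k (fun o => match o with
    | none => FreeAlgebra.ι k none
    | some y => if y ∈ E then FreeAlgebra.ι k (some y) * FreeAlgebra.ι k none
        else FreeAlgebra.ι k (some y))

theorem delta_injective : Function.Injective (delta k E) := by
  let e : FreeAlgebra k (Option Y) ≃ₐ[k] MonoidAlgebra k (FreeMonoid (Option Y)) :=
    FreeAlgebra.equivMonoidAlgebraFreeMonoid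
  have hcomm : (MonoidAlgebra.mapDomainAlgHom k k (codeHom E)).comp e.toAlgHom =
      e.toAlgHom.comp (delta k E) := by
    apply FreeAlgebra.hom_ext
    funext o
    have he : ∀ o, e (FreeAlgebra.ι k o) = MonoidAlgebra.of k _ (FreeMonoid.of o) := by
      intro o
      simp [e, FreeAlgebra.equivMonoidAlgebraFreeMonoid]
    change (MonoidAlgebra.mapDomainAlgHom k k (codeHom E)) (e (FreeAlgebra.ι k o)) =
      e (delta k E (FreeAlgebra.ι k o))
    rw [he, delta, FreeAlgebra.lift_ι_apply]
    have h2 : (MonoidAlgebra.mapDomainAlgHom k k (codeHom E))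
        (MonoidAlgebra.of k _ (FreeMonoid.of o)) =
        MonoidAlgebra.of k _ (codeHom E (FreeMonoid.of o)) := by
      simp
    rw [h2]
    cases o with
    | none => simp [codeHom, code, he]
    | some y =>
      by_cases hy : y ∈ E
      · simp only [codeHom, FreeMonoid.lift_eval_of, code, hy, if_true, map_mul, he]
        rw [← map_mul]
        rfl
      · simp only [codeHom, FreeMonoid.lift_eval_of, code, hy, if_false, he]
        rfl
  have hinj : Function.Injective
      ((MonoidAlgebra.mapDomainAlgHom k k (codeHom E)).comp e.toAlgHom) := by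
    have h1 : Function.Injective (MonoidAlgebra.mapDomainAlgHom k k (codeHom E)) :=
      MonoidAlgebra.mapDomain_injective (codeHom_injective E)
    exact h1.comp e.injective
  rw [hcomm] at hinj
  exact Function.Injective.of_comp (f := e) hinj

end delta

section free

variable {Q : Type u} [AddCommGroup Q] [Module k[X] Q]

omit [AddCommGroup Q] [Module k[X] Q] in
theorem hat_eq_sum (κ : Q →₀ k[X]) : (hat κ : Fr k Q) = κ.sum (fun q f => aeval zz f * xx q) := by
  simp [hat]
  rfl

variable (E : Set Q) (sec : Q →ₗ[k[X]] (Q →₀ k[X]))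

open Classical in
noncomputable def gam : FreeAlgebra k (Option Q) →ₐ[k] Fr k Q :=
  FreeAlgebra.lift k (fun o => match o with
    | none => zz
    | some q => if q ∈ E then xx q * zz else xx q - hat (sec q))

open Classical in
noncomputable def tau : FreeAlgebra k (Option Q) →ₐ[k] Fr k Q :=
  FreeAlgebra.lift k (fun o => match o with
    | none => zz
    | some q => if q ∈ E then xx q else xx q - hat (sec q))

open Classical in
noncomputable def tau' : FreeAlgebra k (Option Q) →ₐ[k] Fr k Q :=
  FreeAlgebra.lift k (fun o => match o with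
    | none => zz
    | some q => if q ∈ E then xx q else xx q + hat (sec q))

theorem tau'_zz : tau' E sec (zz : Fr k Q) = zz := by simp [tau', zz]

theorem tau'_hat (κ : Q →₀ k[X]) (h : ∀ p ∈ κ.support, p ∈ E) :
    tau' E sec (hat κ : Fr k Q) = hat κ := by
  rw [hat_eq_sum, Finsupp.sum, map_sum]
  apply Finset.sum_congr rfl
  intro q hq
  rw [map_mul, ← Polynomial.aeval_algHom_apply, tau'_zz]
  congr 1
  simp [tau', xx, h q hq]

theorem gam_eq : gam E sec = (tau E sec).comp (delta k E) := by
  classical
  apply FreeAlgebra.hom_ext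
  funext o
  cases o with
  | none => simp [gam, tau, delta]
  | some q =>
    by_cases h : q ∈ E
    · simp [gam, tau, delta, h]
    · simp [gam, tau, delta, h]

theorem tau_injective (h3 : ∀ q, ∀ p ∈ (sec q).support, p ∈ E) :
    Function.Injective (tau E sec) := by
  have : (tau' E sec).comp (tau E sec) = AlgHom.id k _ := by
    apply FreeAlgebra.hom_ext
    funext o
    cases o with
    | none => simp [tau, tau', zz]
    | some q =>
      by_cases h : q ∈ E
      · simp [tau, tau', xx, h]
      · have e1 : (tau E sec) (FreeAlgebra.ι k (some q)) = xx q - hat (sec q) := by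
          simp [tau, h]
        simp only [Function.comp, AlgHom.comp_apply, AlgHom.id_apply]
        rw [e1, map_sub, tau'_hat E sec _ (h3 q)]
        simp [tau', xx, h]
  intro a b hab
  have h1 := congrArg (tau' E sec) hab
  have h2 : ∀ a, tau' E sec (tau E sec a) = a := fun a => DFunLike.congr_fun this a
  rwa [h2, h2] at h1

theorem gam_injective (h3 : ∀ q, ∀ p ∈ (sec q).support, p ∈ E) :
    Function.Injective (gam E sec) := by
  rw [gam_eq]
  exact (tau_injective E sec h3).comp (delta_injective E)

theorem gam_range (h1 : ∀ q, lin (sec q) = q) (h2 : ∀ q ∈ E, sec q = Finsupp.single q 1)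
    (h3 : ∀ q, ∀ p ∈ (sec q).support, p ∈ E) : (gam E sec).range = AA k Q := by
  have hw : ∀ q, (xx q - hat (sec q) : Fr k Q) = hat (Finsupp.single q 1 - sec q) := by
    intro q
    rw [map_sub, hat_single, map_one, one_mul]
  apply le_antisymm
  · rintro _ ⟨t, rfl⟩
    change gam E sec t ∈ AA k Q
    induction t using FreeAlgebra.induction with
    | grade0 r => rw [AlgHom.commutes]; exact Subalgebra.algebraMap_mem _ r
    | grade1 o =>
      cases o with
      | none => simp only [gam, FreeAlgebra.lift_ι_apply]; exact zz_mem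
      | some q =>
        simp only [gam, FreeAlgebra.lift_ι_apply]
        split_ifs with h
        · exact xz_mem q
        · rw [hw]
          apply hat_mem
          rw [map_sub, lin_single, h1, one_smul, sub_self]
    | mul a b ha hb => rw [map_mul]; exact mul_mem ha hb
    | add a b ha hb => rw [map_add]; exact add_mem ha hb
  · have mz : (zz : Fr k Q) ∈ (gam E sec).range := ⟨FreeAlgebra.ι k none, by simp [gam]⟩
    have mE : ∀ q ∈ E, (xx q * zz : Fr k Q) ∈ (gam E sec).range := by
      intro q hq
      exact ⟨FreeAlgebra.ι k (some q), by simp [gam, hq]⟩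
    have mw : ∀ q, (xx q - hat (sec q) : Fr k Q) ∈ (gam E sec).range := by
      intro q
      by_cases hq : q ∈ E
      · rw [h2 q hq, hat_single, map_one, one_mul, sub_self]
        exact zero_mem _
      · exact ⟨FreeAlgebra.ι k (some q), by simp [gam, hq]⟩
    have mp : ∀ f : k[X], (aeval zz f : Fr k Q) ∈ (gam E sec).range := by
      intro f
      have := Polynomial.aeval_algHom_apply (gam E sec) (FreeAlgebra.ι k none) f
      have h4 : gam E sec (FreeAlgebra.ι k none) = zz := by simp [gam]
      rw [h4] at this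
      exact ⟨_, this.symm⟩
    have mh : ∀ κ : Q →₀ k[X], (∀ p ∈ κ.support, p ∈ E) →
        (hat κ * zz : Fr k Q) ∈ (gam E sec).range := by
      intro κ hκ
      rw [hat_eq_sum, Finsupp.sum, Finset.sum_mul]
      apply sum_mem
      intro q hq
      rw [mul_assoc]
      exact mul_mem (mp _) (mE q (hκ q hq))
    rintro _ ⟨t, rfl⟩
    change rho k Q t ∈ (gam E sec).range
    induction t using FreeAlgebra.induction with
    | grade0 r => rw [AlgHom.commutes]; exact Subalgebra.algebraMap_mem _ r
    | grade1 o =>
      rcases o with _ | (q | κ)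
      · rw [rho_none]; exact mz
      · rw [rho_inl]
        have : (xx q * zz : Fr k Q) = (xx q - hat (sec q)) * zz + hat (sec q) * zz := by
          rw [sub_mul]; abel
        rw [this]
        exact add_mem (mul_mem (mw q) mz) (mh _ (h3 q))
      · rw [rho_inr]
        obtain ⟨κ, hκ⟩ := κ
        -- hat κ = sum of κ_q(z) w_q
        have key : ∀ κ : Q →₀ k[X], (hat κ : Fr k Q) =
            κ.sum (fun q f => aeval zz f * (xx q - hat (sec q))) + hat (sec (lin κ)) := by
          intro κ
          induction κ using Finsupp.induction_linear with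
          | zero => simp
          | add a b ha hb =>
            rw [map_add, ha, hb, Finsupp.sum_add_index' (by simp) (by intro q f g; simp [add_mul]),
              map_add, map_add, map_add]
            abel
          | single q g =>
            rw [hat_single, Finsupp.sum_single_index (by simp), lin_single, map_smul, hat_smul]
            rw [mul_sub]; abel
        change hat κ ∈ (gam E sec).range
        rw [key κ, hκ, map_zero, map_zero, add_zero, Finsupp.sum]
        apply sum_mem
        intro q _
        exact mul_mem (mp _) (mw q)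
    | mul a b ha hb => rw [map_mul]; exact mul_mem ha hb
    | add a b ha hb => rw [map_add]; exact add_mem ha hb

/-- The subalgebra attached to a free module is a free algebra. -/
theorem AA_free (h1 : ∀ q, lin (sec q) = q) (h2 : ∀ q ∈ E, sec q = Finsupp.single q 1)
    (h3 : ∀ q, ∀ p ∈ (sec q).support, p ∈ E) :
    Nonempty (AA k Q ≃ₐ[k] FreeAlgebra k (Option Q)) := by
  have e1 : FreeAlgebra k (Option Q) ≃ₐ[k] (gam E sec).range :=
    AlgEquiv.ofInjective (gam E sec) (gam_injective E sec h3)
  rw [gam_range E sec h1 h2 h3] at e1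
  exact ⟨e1.symm⟩

end free

variable (k) in
theorem section_finsupp : ∃ (E : Set (ℕ →₀ k[X]))
    (sec : (ℕ →₀ k[X]) →ₗ[k[X]] ((ℕ →₀ k[X]) →₀ k[X])), (∀ q, lin (sec q) = q) ∧
    (∀ q ∈ E, sec q = Finsupp.single q 1) ∧ (∀ q, ∀ p ∈ (sec q).support, p ∈ E) := by
  classical
  let e : ℕ → (ℕ →₀ k[X]) := fun n => Finsupp.single n 1
  let sec : (ℕ →₀ k[X]) →ₗ[k[X]] ((ℕ →₀ k[X]) →₀ k[X]) :=
    Finsupp.lmapDomain k[X] k[X] e
  refine ⟨Set.range e, sec, ?_, ?_, ?_⟩
  · intro q
    induction q using Finsupp.induction_linear with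
    | zero => simp
    | add a b ha hb => rw [map_add, map_add, ha, hb]
    | single n f =>
      simp only [sec, Finsupp.lmapDomain_apply, Finsupp.mapDomain_single, lin_single, e]
      simp
  · rintro _ ⟨n, rfl⟩
    simp only [sec, Finsupp.lmapDomain_apply, e, Finsupp.mapDomain_single]
  · intro q p hp
    have := Finsupp.mapDomain_support hp
    obtain ⟨n, -, rfl⟩ := Finset.mem_image.1 this
    exact ⟨n, rfl⟩

variable (k) in
theorem AA_free_finsupp :
    Nonempty (AA k (ℕ →₀ k[X]) ≃ₐ[k] FreeAlgebra k (Option (ℕ →₀ k[X]))) := by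
  obtain ⟨E, sec, h1, h2, h3⟩ := section_finsupp k
  exact AA_free E sec h1 h2 h3

end part3

section part4

variable {k : Type u} [Field k]

section maps

variable {Q P : Type u}

/-- functoriality -/
noncomputable def mapF (g : Q → P) : Fr k Q →ₐ[k] Fr k P :=
  FreeAlgebra.lift k (fun o => FreeAlgebra.ι k (o.map g))

theorem mapF_zz (g : Q → P) : mapF g (zz : Fr k Q) = zz := by simp [mapF, zz]

theorem mapF_xx (g : Q → P) (q : Q) : mapF g (xx q : Fr k Q) = xx (g q) := by simp [mapF, xx]

theorem mapF_comp {S : Type u} (g : Q → P) (h : P → S) (a : Fr k Q) :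
    mapF h (mapF g a) = mapF (h ∘ g) a := by
  have : (mapF h).comp (mapF g) = (mapF (h ∘ g) : Fr k Q →ₐ[k] Fr k S) := by
    apply FreeAlgebra.hom_ext
    funext o
    cases o <;> simp [mapF]
  rw [← this]; rfl

theorem mapF_id (a : Fr k Q) : mapF (fun q => q) a = a := by
  have : (mapF (fun q => q)) = AlgHom.id k (Fr k Q) := by
    apply FreeAlgebra.hom_ext
    funext o
    cases o <;> simp [mapF]
  rw [this]; rfl

theorem mapF_hat (g : Q → P) (κ : Q →₀ k[X]) :
    mapF g (hat κ : Fr k Q) = hat (κ.mapDomain g) := by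
  induction κ using Finsupp.induction_linear with
  | zero => simp
  | add a b ha hb => rw [map_add, map_add, ha, hb, Finsupp.mapDomain_add, map_add]
  | single q f =>
    rw [hat_single, map_mul, ← Polynomial.aeval_algHom_apply, mapF_zz, mapF_xx,
      Finsupp.mapDomain_single, hat_single]

theorem mapF_injective [Nonempty Q] {g : Q → P} (hg : Function.Injective g) :
    Function.Injective (mapF g : Fr k Q → Fr k P) := by
  intro a b hab
  have h1 := congrArg (mapF (Function.invFun g)) hab
  have h2 : Function.invFun g ∘ g = fun q => q := by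
    funext q; exact Function.leftInverse_invFun hg q
  rwa [mapF_comp, mapF_comp, h2, mapF_id, mapF_id] at h1

/-- elements involve finitely many letters -/
theorem finite_letters (a : Fr k Q) : ∃ s : Finset Q, ∀ (P : Type u) (g g' : Q → P),
    (∀ q ∈ s, g q = g' q) → mapF g a = mapF g' a := by
  classical
  induction a using FreeAlgebra.induction with
  | grade0 r => exact ⟨∅, fun P g g' _ => by rw [AlgHom.commutes, AlgHom.commutes]⟩
  | grade1 o =>
    cases o with
    | none => exact ⟨∅, fun P g g' _ => by simp [mapF]⟩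
    | some q => exact ⟨{q}, fun P g g' h => by simp [mapF, h q (by simp)]⟩
  | mul a b ha hb =>
    obtain ⟨s, hs⟩ := ha
    obtain ⟨t, ht⟩ := hb
    refine ⟨s ∪ t, fun P g g' h => ?_⟩
    rw [map_mul, map_mul, hs P g g' (fun q hq => h q (Finset.mem_union_left _ hq)),
      ht P g g' (fun q hq => h q (Finset.mem_union_right _ hq))]
  | add a b ha hb =>
    obtain ⟨s, hs⟩ := ha
    obtain ⟨t, ht⟩ := hb
    refine ⟨s ∪ t, fun P g g' h => ?_⟩
    rw [map_add, map_add, hs P g g' (fun q hq => h q (Finset.mem_union_left _ hq)),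
      ht P g g' (fun q hq => h q (Finset.mem_union_right _ hq))]

variable [AddCommGroup Q] [Module k[X] Q] [AddCommGroup P] [Module k[X] P]

theorem lin_mapDomain (g : Q →ₗ[k[X]] P) (κ : Q →₀ k[X]) :
    lin (κ.mapDomain g) = g (lin κ) := by
  induction κ using Finsupp.induction_linear with
  | zero => simp
  | add a b ha hb => rw [Finsupp.mapDomain_add, map_add, map_add, map_add, ha, hb]
  | single q f => rw [Finsupp.mapDomain_single, lin_single, lin_single, map_smul]

theorem mapF_mem (g : Q →ₗ[k[X]] P) {a : Fr k Q} (ha : a ∈ AA k Q) :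
    mapF g a ∈ AA k P := by
  obtain ⟨t, rfl⟩ := ha
  change mapF g (rho k Q t) ∈ AA k P
  induction t using FreeAlgebra.induction with
  | grade0 r => rw [AlgHom.commutes, AlgHom.commutes]; exact Subalgebra.algebraMap_mem _ r
  | grade1 o =>
    rcases o with _ | (q | κ)
    · rw [rho_none, mapF_zz]; exact zz_mem
    · rw [rho_inl, map_mul, mapF_zz, mapF_xx]; exact xz_mem _
    · rw [rho_inr, mapF_hat]
      apply hat_mem
      rw [lin_mapDomain, κ.2, map_zero]
  | mul a b ha hb => rw [map_mul, map_mul]; exact mul_mem ha hb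
  | add a b ha hb => rw [map_add, map_add]; exact add_mem ha hb

/-- automorphisms preserve the subalgebra -/
theorem mapF_mem_iff (h : P ≃ₗ[k[X]] P) (a : Fr k P) : mapF h a ∈ AA k P ↔ a ∈ AA k P := by
  constructor
  · intro ha
    have := mapF_mem (h.symm : P →ₗ[k[X]] P) ha
    have h2 : mapF (h.symm : P →ₗ[k[X]] P) (mapF h a) = a := by
      rw [mapF_comp]
      have : (⇑(h.symm : P →ₗ[k[X]] P) ∘ ⇑h) = fun q => q := by
        funext q; simp
      rw [this, mapF_id]
    rwa [h2] at this
  · intro ha
    exact mapF_mem (h : P →ₗ[k[X]] P) ha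

theorem push (i : Q →ₗ[k[X]] P) (hi : Function.Injective i) {a : Fr k P} (ha : a ∈ AA k P) :
    ∃ t : Finset P, ∀ h : P →ₗ[k[X]] P, (∀ p ∈ t, ∃ q, i q = h p) →
      ∃ b ∈ AA k Q, mapF i b = mapF h a := by
  classical
  obtain ⟨t, rfl⟩ := ha
  change ∃ t' : Finset P, ∀ h : P →ₗ[k[X]] P, (∀ p ∈ t', ∃ q, i q = h p) →
      ∃ b ∈ AA k Q, mapF i b = mapF h (rho k P t)
  induction t using FreeAlgebra.induction with
  | grade0 r =>
    refine ⟨∅, fun h _ => ⟨algebraMap k _ r, Subalgebra.algebraMap_mem _ r, ?_⟩⟩
    rw [AlgHom.commutes, AlgHom.commutes, AlgHom.commutes]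
  | grade1 o =>
    rcases o with _ | (p | κ)
    · refine ⟨∅, fun h _ => ⟨zz, zz_mem, ?_⟩⟩
      rw [rho_none, mapF_zz, mapF_zz]
    · refine ⟨{p}, fun h hp => ?_⟩
      obtain ⟨q, hq⟩ := hp p (by simp)
      refine ⟨xx q * zz, xz_mem q, ?_⟩
      rw [rho_inl, map_mul, map_mul, mapF_zz, mapF_zz, mapF_xx, mapF_xx, hq]
    · refine ⟨κ.1.support, fun h hp => ?_⟩
      let c : P → Q := fun p => if hc : ∃ q, i q = h p then hc.choose else 0
      have hc : ∀ p ∈ κ.1.support, i (c p) = h p := by
        intro p hp'
        have hc := hp p hp'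
        simp only [c, dif_pos hc]
        exact hc.choose_spec
      have e1 : (κ.1.mapDomain c).mapDomain i = κ.1.mapDomain h := by
        rw [← Finsupp.mapDomain_comp]
        exact Finsupp.mapDomain_congr hc
      refine ⟨hat (κ.1.mapDomain c), hat_mem _ ?_, ?_⟩
      · apply hi
        rw [← lin_mapDomain, e1, lin_mapDomain, κ.2, map_zero, map_zero]
      · rw [rho_inr, mapF_hat, mapF_hat, e1]
  | mul a b ha hb =>
    obtain ⟨s, hs⟩ := ha
    obtain ⟨t, ht⟩ := hb
    refine ⟨s ∪ t, fun h hh => ?_⟩
    obtain ⟨a', ha', ha2⟩ := hs h (fun p hp => hh p (Finset.mem_union_left _ hp))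
    obtain ⟨b', hb', hb2⟩ := ht h (fun p hp => hh p (Finset.mem_union_right _ hp))
    exact ⟨a' * b', mul_mem ha' hb', by rw [map_mul, map_mul, map_mul, ha2, hb2]⟩
  | add a b ha hb =>
    obtain ⟨s, hs⟩ := ha
    obtain ⟨t, ht⟩ := hb
    refine ⟨s ∪ t, fun h hh => ?_⟩
    obtain ⟨a', ha', ha2⟩ := hs h (fun p hp => hh p (Finset.mem_union_left _ hp))
    obtain ⟨b', hb', hb2⟩ := ht h (fun p hp => hh p (Finset.mem_union_right _ hp))
    exact ⟨a' + b', add_mem ha' hb', by rw [map_add, map_add, map_add, ha2, hb2]⟩

end maps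

section geom

/-- Enough automorphisms of the Baer-Specker module. -/
theorem move (s : Finset (ℕ →₀ k[X])) (t : Finset (ℕ → k[X])) :
    ∃ h : (ℕ → k[X]) ≃ₗ[k[X]] (ℕ → k[X]), (∀ q ∈ s, h (q : ℕ → k[X]) = q) ∧
      (∀ p ∈ t, ∃ q : ℕ →₀ k[X], (q : ℕ → k[X]) = h p) := by
  classical
  -- supports of `s` below `n0`
  obtain ⟨n0, hn0⟩ : ∃ n0, ∀ q ∈ s, ∀ j, n0 ≤ j → (q : ℕ → k[X]) j = 0 := by
    let S : Finset ℕ := s.biUnion Finsupp.support
    refine ⟨S.sup id + 1, fun q hq j hj => ?_⟩
    by_contra h
    have : j ∈ S := Finset.mem_biUnion.2 ⟨q, hq, Finsupp.mem_support_iff.2 h⟩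
    have := Finset.le_sup (f := id) this
    simp only [id] at this
    omega
  let u : ℕ → (t → k[X]) := fun j p => p.1 j
  let N : ℕ →o Submodule k[X] (t → k[X]) :=
    ⟨fun m => Submodule.span k[X] (u '' (Finset.Ico n0 m : Finset ℕ)), fun a b hab =>
      Submodule.span_mono (Set.image_mono (by
        rw [Finset.coe_subset]
        exact Finset.Ico_subset_Ico_right hab))⟩
  obtain ⟨m0, hm0⟩ := monotone_stabilizes_iff_noetherian.2
    (inferInstance : IsNoetherian k[X] (t → k[X])) N
  -- we may assume n0 ≤ m0
  let m := max m0 n0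
  have hm : ∀ j, m ≤ j → u j ∈ Submodule.span k[X] (u '' (Finset.Ico n0 m : Finset ℕ)) := by
    intro j hj
    have h1 : u j ∈ N (j + 1) := by
      apply Submodule.subset_span
      refine ⟨j, ?_, rfl⟩
      rw [Finset.mem_coe, Finset.mem_Ico]
      exact ⟨(le_max_right _ _).trans hj, Nat.lt_succ_self j⟩
    have h2 : N (j + 1) = N m := by
      rw [← hm0 (j + 1) (((le_max_left _ _).trans hj).trans (Nat.le_succ j)),
        ← hm0 m (le_max_left _ _)]
    rw [h2] at h1
    exact h1
  have hc : ∀ j, ∃ c : ℕ → k[X], m ≤ j → ∑ i ∈ Finset.Ico n0 m, c i • u i = u j := by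
    intro j
    by_cases hj : m ≤ j
    · obtain ⟨c, hc⟩ := (Submodule.mem_span_image_finset_iff_exists_fun' k[X]).1 (hm j hj)
      exact ⟨c, fun _ => hc⟩
    · exact ⟨0, fun h => absurd h hj⟩
  choose c hc using hc
  let Nl : (ℕ → k[X]) →ₗ[k[X]] (ℕ → k[X]) :=
    { toFun := fun x j => if m ≤ j then ∑ i ∈ Finset.Ico n0 m, c j i * x i else 0
      map_add' := by
        intro x y
        funext j
        simp only [Pi.add_apply]
        split_ifs
        · rw [← Finset.sum_add_distrib]
          exact Finset.sum_congr rfl (fun i _ => by ring)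
        · simp
      map_smul' := by
        intro r x
        funext j
        simp only [Pi.smul_apply, smul_eq_mul, RingHom.id_apply]
        split_ifs
        · rw [Finset.mul_sum]
          exact Finset.sum_congr rfl (fun i _ => by ring)
        · simp }
  have hNN : ∀ x, Nl (Nl x) = 0 := by
    intro x
    funext j
    change (if m ≤ j then ∑ i ∈ Finset.Ico n0 m, c j i *
      (if m ≤ i then ∑ i' ∈ Finset.Ico n0 m, c i i' * x i' else 0) else 0) = 0
    split_ifs
    · apply Finset.sum_eq_zero
      intro i hi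
      have : ¬ m ≤ i := not_le.2 (Finset.mem_Ico.1 hi).2
      rw [if_neg this, mul_zero]
    · rfl
  let h : (ℕ → k[X]) ≃ₗ[k[X]] (ℕ → k[X]) := LinearEquiv.ofLinearMap
    (LinearMap.id - Nl) (LinearMap.id + Nl)
    (by ext1 x; simp [hNN])
    (by ext1 x; simp [hNN])
  have hh : ∀ x, h x = x - Nl x := fun x => rfl
  refine ⟨h, ?_, ?_⟩
  · intro q hq
    rw [hh]
    have : Nl (q : ℕ → k[X]) = 0 := by
      funext j
      change (if m ≤ j then ∑ i ∈ Finset.Ico n0 m, c j i * q i else 0) = 0
      split_ifs
      · apply Finset.sum_eq_zero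
        intro i hi
        rw [hn0 q hq i (Finset.mem_Ico.1 hi).1, mul_zero]
      · rfl
    rw [this, sub_zero]
  · intro p hp
    have hz : ∀ j, m ≤ j → h p j = 0 := by
      intro j hj
      rw [hh]
      change p j - (if m ≤ j then ∑ i ∈ Finset.Ico n0 m, c j i * p i else 0) = 0
      rw [if_pos hj]
      have := congrFun (hc j hj) ⟨p, hp⟩
      simp only [Finset.sum_apply, Pi.smul_apply, smul_eq_mul, u] at this
      rw [this, sub_self]
    refine ⟨Finsupp.onFinset (Finset.range m) (h p) (fun j hj => ?_), rfl⟩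
    by_contra hc
    exact hj (hz j (not_lt.1 (fun h => hc (Finset.mem_range.2 h))))

end geom

end part4

section part5

/-- elementary embeddings from automorphisms -/
theorem elem_emb {L : FirstOrder.Language.{u, 0}} {S M : Type u} [L.Structure S] [L.Structure M]
    (j : S ↪[L] M)
    (H : ∀ (s : Finset S) (a : M), ∃ σ : M ≃[L] M, (∀ x ∈ s, σ (j x) = j x) ∧ ∃ b, j b = σ a)
    {n : ℕ} (φ : L.BoundedFormula Empty n) : ∀ xs : Fin n → S,
    (φ.Realize default (j ∘ xs) ↔ φ.Realize default xs) := by
  classical
  have hterm : ∀ {n : ℕ} (t : L.Term (Empty ⊕ Fin n)) (xs : Fin n → S),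
      t.realize (Sum.elim default (j ∘ xs)) = j (t.realize (Sum.elim default xs)) := by
    intro n t xs
    rw [← HomClass.realize_term j]
    congr 1
    funext c
    rcases c with c | c
    · exact c.elim
    · rfl
  induction φ with
  | falsum => intro xs; exact Iff.rfl
  | equal t₁ t₂ =>
    intro xs
    simp only [BoundedFormula.Realize, hterm]
    exact j.injective.eq_iff
  | rel R ts =>
    intro xs
    simp only [BoundedFormula.Realize, hterm]
    exact j.map_rel R _
  | imp φ ψ ih1 ih2 =>
    intro xs
    rw [BoundedFormula.realize_imp, BoundedFormula.realize_imp, ih1, ih2]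
  | all φ ih =>
    intro xs
    rw [BoundedFormula.realize_all, BoundedFormula.realize_all]
    constructor
    · intro h a
      rw [← ih]
      have := h (j a)
      rwa [← Fin.comp_snoc] at this
    · intro h a
      obtain ⟨σ, hσ, b, hb⟩ := H (Finset.univ.image xs) a
      have h1 := h b
      rw [← ih, Fin.comp_snoc, hb] at h1
      have h2 := StrongHomClass.realize_boundedFormula σ φ (v := (default : Empty → M))
        (xs := Fin.snoc (j ∘ xs) a)
      have e1 : (σ ∘ (default : Empty → M)) = default := funext (fun x => x.elim)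
      have e2 : (σ ∘ (j ∘ xs)) = j ∘ xs :=
        funext (fun i => hσ _ (Finset.mem_image_of_mem _ (Finset.mem_univ i)))
      rw [← h2, e1, Fin.comp_snoc, e2]
      exact h1

theorem realize_irrel {L : FirstOrder.Language.{u, 0}} {M : Type u} [L.Structure M]
    (φ : L.BoundedFormula Empty 0) (v v' : Empty → M) (xs xs' : Fin 0 → M)
    (h : φ.Realize v xs) : φ.Realize v' xs' := by
  have e1 : v = v' := funext (fun i => i.elim)
  have e2 : xs = xs' := funext (fun i => i.elim0)
  rw [← e1, ← e2]
  exact h

theorem elem_sentence {L : FirstOrder.Language.{u, 0}} {S M : Type u} [L.Structure S]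
    [L.Structure M] (j : S ↪[L] M)
    (H : ∀ (s : Finset S) (a : M), ∃ σ : M ≃[L] M, (∀ x ∈ s, σ (j x) = j x) ∧ ∃ b, j b = σ a)
    (Th : L.Theory) (h : S ⊨ Th) : M ⊨ Th := by
  rw [Theory.model_iff] at h ⊢
  intro φ hφ
  have h1 := h φ hφ
  have h2 := elem_emb j H φ (default : Fin 0 → S)
  change Formula.Realize φ _ at h1
  change Formula.Realize φ _
  unfold Formula.Realize at h1 ⊢
  exact realize_irrel φ _ _ _ _ (h2.2 (realize_irrel φ _ _ _ _ h1))

section common

variable {k : Type u} [Field k]

/-- inclusion of finitely supported sequences -/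
noncomputable def inc (k : Type u) [Field k] : (ℕ →₀ k[X]) →ₗ[k[X]] (ℕ → k[X]) :=
  Finsupp.lcoeFun

theorem inc_apply (q : ℕ →₀ k[X]) : inc k q = q := rfl

theorem inc_injective : Function.Injective (inc k) := DFunLike.coe_injective

theorem mapF_inc_injective : Function.Injective
    (mapF (inc k) : Fr k (ℕ →₀ k[X]) → Fr k (ℕ → k[X])) := mapF_injective inc_injective

theorem move' (s : Finset (Fr k (ℕ →₀ k[X]))) (t : Finset (ℕ → k[X])) :
    ∃ h : (ℕ → k[X]) ≃ₗ[k[X]] (ℕ → k[X]),
      (∀ x ∈ s, mapF h (mapF (inc k) x) = mapF (inc k) x) ∧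
      (∀ p ∈ t, ∃ q, inc k q = h p) := by
  classical
  choose f hf using (finite_letters (k := k) (Q := ℕ →₀ k[X]))
  obtain ⟨h, h1, h2⟩ := move (s.biUnion f) t
  refine ⟨h, fun x hx => ?_, h2⟩
  rw [mapF_comp]
  apply hf x
  intro q hq
  exact h1 q (Finset.mem_biUnion.2 ⟨x, hx, hq⟩)

theorem mem_iff (a : Fr k (ℕ →₀ k[X])) :
    mapF (inc k) a ∈ AA k (ℕ → k[X]) ↔ a ∈ AA k (ℕ →₀ k[X]) := by
  constructor
  · intro ha
    obtain ⟨t, ht⟩ := push (inc k) inc_injective ha
    obtain ⟨h, h1, h2⟩ := move' {a} t
    obtain ⟨b, hb, hb2⟩ := ht h h2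
    have h3 := h1 a (by simp)
    have h4 : mapF (inc k) b = mapF (inc k) a := hb2.trans h3
    rw [← mapF_inc_injective h4]
    exact hb
  · exact mapF_mem (inc k)

theorem push' (a : Fr k (ℕ → k[X])) : ∃ t : Finset (ℕ → k[X]),
    ∀ h : (ℕ → k[X]) → (ℕ → k[X]), (∀ p ∈ t, ∃ q, inc k q = h p) →
      ∃ b, mapF (inc k) b = mapF h a := by
  classical
  obtain ⟨t, ht⟩ := finite_letters a
  refine ⟨t, fun h hh => ?_⟩
  let c : (ℕ → k[X]) → (ℕ →₀ k[X]) := fun p => if hc : ∃ q, inc k q = h p then hc.choose else 0
  have hc : ∀ p ∈ t, inc k (c p) = h p := by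
    intro p hp'
    have hc := hh p hp'
    simp only [c, dif_pos hc]
    exact hc.choose_spec
  refine ⟨mapF c a, ?_⟩
  rw [mapF_comp]
  exact ht _ _ _ hc

/-- there is a suitable automorphism -/
theorem auto (s : Finset (Fr k (ℕ →₀ k[X]))) (a : Fr k (ℕ → k[X])) :
    ∃ h : (ℕ → k[X]) ≃ₗ[k[X]] (ℕ → k[X]),
      (∀ x ∈ s, mapF h (mapF (inc k) x) = mapF (inc k) x) ∧ ∃ b, mapF (inc k) b = mapF h a := by
  obtain ⟨t, ht⟩ := push' a
  obtain ⟨h, h1, h2⟩ := move' s t
  exact ⟨h, h1, ht h h2⟩

theorem mapF_symm (h : (ℕ → k[X]) ≃ₗ[k[X]] (ℕ → k[X])) (a : Fr k (ℕ → k[X])) :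
    mapF h.symm (mapF h a) = a := by
  rw [mapF_comp]
  have : (⇑h.symm ∘ ⇑h) = fun q => q := by funext q; simp
  rw [this, mapF_id]

theorem mapF_symm' (h : (ℕ → k[X]) ≃ₗ[k[X]] (ℕ → k[X])) (a : Fr k (ℕ → k[X])) :
    mapF h (mapF h.symm a) = a := by
  rw [mapF_comp]
  have : (⇑h ∘ ⇑h.symm) = fun q => q := by funext q; simp
  rw [this, mapF_id]

/-- The big subalgebra is not free. -/
theorem AA_not_free (Y : Type u) (e : AA k (ℕ → k[X]) ≃ₐ[k] FreeAlgebra k Y) : False := by
  have ht : ∀ y : Y, ∃ t, rho k (ℕ → k[X]) t = (e.symm (FreeAlgebra.ι k y)).1 :=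
    fun y => (e.symm (FreeAlgebra.ι k y)).2
  choose t ht using ht
  let s : AA k (ℕ → k[X]) →ₐ[k] FreeAlgebra k (Option (Wt k (ℕ → k[X]))) :=
    (FreeAlgebra.lift k t).comp e.toAlgHom
  have hs : ∀ a, rho k (ℕ → k[X]) (s a) = a.1 := by
    have h1 : (rho k (ℕ → k[X])).comp (FreeAlgebra.lift k t) =
        (AA k (ℕ → k[X])).val.comp e.symm.toAlgHom := by
      apply FreeAlgebra.hom_ext
      funext y
      simp only [Function.comp, AlgHom.comp_apply, FreeAlgebra.lift_ι_apply, ht]
      rfl
    intro a
    have h2 := DFunLike.congr_fun h1 (e a)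
    simp only [AlgHom.comp_apply] at h2
    change rho k (ℕ → k[X]) (FreeAlgebra.lift k t (e a)) = a.1
    rw [h2]
    change (e.symm (e a)).1 = a.1
    rw [e.symm_apply_apply]
  obtain ⟨φ, hφ⟩ := retract s hs
  exact no_embed k _ φ hφ

end common

section unital

variable (k : Type u) [Field k]

/-- the embedding -/
noncomputable def emb1 : letI := pair1 (AA k (ℕ →₀ k[X])); letI := pair1 (AA k (ℕ → k[X]));
    Fr k (ℕ →₀ k[X]) ↪[L1 k] Fr k (ℕ → k[X]) := by
  letI := pair1 (AA k (ℕ →₀ k[X]))
  letI := pair1 (AA k (ℕ → k[X]))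
  exact
  { toFun := mapF (inc k)
    inj' := mapF_inc_injective
    map_fun' := by
      intro n f xs
      cases f with
      | zero => exact map_zero _
      | one => exact map_one _
      | neg => exact map_neg _ _
      | smul c => exact map_smul _ _ _
      | add => exact map_add _ _ _
      | mul => exact map_mul _ _ _
    map_rel' := by
      intro n r xs
      cases r with
      | P => exact mem_iff (xs 0) }

/-- the automorphism -/
noncomputable def aut1 (h : (ℕ → k[X]) ≃ₗ[k[X]] (ℕ → k[X])) :
    letI := pair1 (AA k (ℕ → k[X])); Fr k (ℕ → k[X]) ≃[L1 k] Fr k (ℕ → k[X]) := by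
  letI := pair1 (AA k (ℕ → k[X]))
  exact
  { toFun := mapF h
    invFun := mapF h.symm
    left_inv := mapF_symm h
    right_inv := mapF_symm' h
    map_fun' := by
      intro n f xs
      cases f with
      | zero => exact map_zero _
      | one => exact map_one _
      | neg => exact map_neg _ _
      | smul c => exact map_smul _ _ _
      | add => exact map_add _ _ _
      | mul => exact map_mul _ _ _
    map_rel' := by
      intro n r xs
      cases r with
      | P => exact mapF_mem_iff h (xs 0) }

theorem unital : ¬ ∃ Th : (L1 k).Theory,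
    ∀ (F : Type u) [Ring F] [Algebra k F] (A : Subalgebra k F), IsFree1 k F →
      (IsFree1 k A ↔ @Theory.Model (L1 k) F (pair1 A) Th) := by
  rintro ⟨Th, h⟩
  have h1 := (h (Fr k (ℕ →₀ k[X])) (AA k (ℕ →₀ k[X])) ⟨_, ⟨AlgEquiv.refl⟩⟩).1
    ⟨_, AA_free_finsupp k⟩
  have h2 : @Theory.Model (L1 k) (Fr k (ℕ → k[X])) (pair1 (AA k (ℕ → k[X]))) Th := by
    letI := pair1 (AA k (ℕ →₀ k[X]))
    letI := pair1 (AA k (ℕ → k[X]))
    apply elem_sentence (emb1 k) _ Th h1
    intro s a
    obtain ⟨g, hg1, hg2⟩ := auto s a
    exact ⟨aut1 k g, hg1, hg2⟩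
  obtain ⟨Y, ⟨e⟩⟩ := (h (Fr k (ℕ → k[X])) (AA k (ℕ → k[X])) ⟨_, ⟨AlgEquiv.refl⟩⟩).2 h2
  exact AA_not_free Y e

end unital

end part5

section part6


section nonunital

variable {k : Type u} [Field k]

/-- augmentation -/
noncomputable def eps {X : Type u} : FreeAlgebra k X →ₐ[k] k := FreeAlgebra.lift k (fun _ => 0)

theorem eps_ι {X : Type u} (x : X) : eps (FreeAlgebra.ι k x) = 0 := by simp [eps]

theorem sub_mem_NF {X : Type u} (a : FreeAlgebra k X) :
    a - algebraMap k _ (eps a) ∈ NF k X := by
  induction a using FreeAlgebra.induction with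
  | grade0 r => rw [AlgHom.commutes]; simp
  | grade1 x =>
    rw [eps_ι, map_zero, sub_zero]
    exact NonUnitalAlgebra.subset_adjoin k ⟨x, rfl⟩
  | mul a b ha hb =>
    have : a * b - algebraMap k _ (eps (a * b)) =
        (a - algebraMap k _ (eps a)) * (b - algebraMap k _ (eps b)) +
        (eps a • (b - algebraMap k _ (eps b)) + eps b • (a - algebraMap k _ (eps a))) := by
      rw [map_mul, map_mul, Algebra.smul_def, Algebra.smul_def, Algebra.commutes (eps b)]
      noncomm_ring
    rw [this]
    exact add_mem (mul_mem ha hb) (add_mem (SMulMemClass.smul_mem _ hb)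
      (SMulMemClass.smul_mem _ ha))
  | add a b ha hb =>
    have : a + b - algebraMap k _ (eps (a + b)) =
        (a - algebraMap k _ (eps a)) + (b - algebraMap k _ (eps b)) := by
      rw [map_add, map_add]; abel
    rw [this]
    exact add_mem ha hb

theorem mem_NF {X : Type u} (a : FreeAlgebra k X) : a ∈ NF k X ↔ eps a = 0 := by
  constructor
  · intro ha
    refine NonUnitalAlgebra.adjoin_induction (p := fun a _ => eps a = 0) ?_ ?_ ?_ ?_ ?_ ha
    · rintro _ ⟨x, rfl⟩; exact eps_ι x
    · intro a b _ _ ha hb; rw [map_add, ha, hb, add_zero]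
    · exact map_zero _
    · intro a b _ _ ha hb; rw [map_mul, ha, zero_mul]
    · intro r a _ ha; rw [map_smul, ha, smul_zero]
  · intro ha
    have := sub_mem_NF a
    rwa [ha, map_zero, sub_zero] at this

variable {Q P : Type u}

theorem eps_mapF (g : Q → P) (a : Fr k Q) : eps (mapF g a) = eps a := by
  have : (eps).comp (mapF g) = (eps : Fr k Q →ₐ[k] k) := by
    apply FreeAlgebra.hom_ext
    funext o
    simp [eps, mapF]
  rw [← this]; rfl

/-- functoriality for non-unital algebras -/
noncomputable def mapN (g : Q → P) (a : NF k (Option Q)) : NF k (Option P) :=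
  ⟨mapF g a.1, by rw [mem_NF, eps_mapF]; exact (mem_NF _).1 a.2⟩

variable [AddCommGroup Q] [Module k[X] Q]

variable (k Q) in
/-- the non-unital subalgebra -/
noncomputable def A0 : NonUnitalSubalgebra k (NF k (Option Q)) where
  carrier := {a | a.1 ∈ AA k Q}
  add_mem' := by
    intro a b ha hb
    exact (AA k Q).add_mem ha hb
  zero_mem' := (AA k Q).zero_mem
  mul_mem' := by
    intro a b ha hb
    exact (AA k Q).mul_mem ha hb
  smul_mem' := by
    intro c a ha
    exact (AA k Q).smul_mem ha c

theorem mem_A0 (a : NF k (Option Q)) : a ∈ A0 k Q ↔ a.1 ∈ AA k Q := Iff.rfl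

theorem free0_of {Y : Type u} (g : FreeAlgebra k Y →ₐ[k] Fr k Q) (hg : Function.Injective g)
    (hr : g.range = AA k Q) (he : ∀ t, eps (g t) = eps t) : IsFree0 k (A0 k Q) := by
  have hex : ∀ a : A0 k Q, ∃ t : NF k Y, g t.1 = a.1.1 := by
    intro a
    have h1 : a.1.1 ∈ g.range := by rw [hr]; exact (mem_A0 _).1 a.2
    obtain ⟨t, ht⟩ := h1
    refine ⟨⟨t, ?_⟩, ht⟩
    rw [mem_NF, ← he]
    have h2 : eps (a.1.1) = 0 := (mem_NF _).1 a.1.2
    rw [← h2]
    exact congrArg eps ht
  choose f hf using hex
  refine ⟨Y, { toFun := f, map_smul' := ?_, map_zero' := ?_, map_add' := ?_, map_mul' := ?_ }, ?_⟩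
  · intro c a
    apply Subtype.ext
    apply hg
    rw [hf]
    change c • a.1.1 = g (c • (f a).1)
    rw [map_smul, hf]
  · apply Subtype.ext
    apply hg
    rw [hf]
    exact (map_zero g).symm
  · intro a b
    apply Subtype.ext
    apply hg
    rw [hf]
    change a.1.1 + b.1.1 = g ((f a).1 + (f b).1)
    rw [map_add, hf, hf]
  · intro a b
    apply Subtype.ext
    apply hg
    rw [hf]
    change a.1.1 * b.1.1 = g ((f a).1 * (f b).1)
    rw [map_mul, hf, hf]
  · constructor
    · intro a b hab
      have hab' : f a = f b := hab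
      apply Subtype.ext
      apply Subtype.ext
      rw [← hf, ← hf, hab']
    · intro t
      have h1 : g t.1 ∈ AA k Q := by rw [← hr]; exact ⟨_, rfl⟩
      have h2 : g t.1 ∈ NF k (Option Q) := by
        rw [mem_NF, he]; exact (mem_NF _).1 t.2
      refine ⟨⟨⟨g t.1, h2⟩, (mem_A0 _).2 h1⟩, ?_⟩
      apply Subtype.ext
      apply hg
      exact hf _

theorem free1_of (h : IsFree0 k (A0 k Q)) :
    ∃ Y : Type u, Nonempty (AA k Q ≃ₐ[k] FreeAlgebra k Y) := by
  obtain ⟨Y, f, hf⟩ := h
  have hpre : ∀ n : NF k Y, ∃ a : A0 k Q, f a = n := hf.2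
  choose f' hf' using hpre
  have hf'' : ∀ a, f' (f a) = a := fun a => hf.1 (hf' _)
  let g : FreeAlgebra k Y →ₐ[k] Fr k Q :=
    FreeAlgebra.lift k (fun y => (f' ⟨FreeAlgebra.ι k y, NonUnitalAlgebra.subset_adjoin k ⟨y, rfl⟩⟩).1.1)
  have hgn : ∀ n (hn : n ∈ NF k Y), g n = (f' ⟨n, hn⟩).1.1 := by
    intro n hn
    refine NonUnitalAlgebra.adjoin_induction (p := fun n hn => g n = (f' ⟨n, hn⟩).1.1)
      ?_ ?_ ?_ ?_ ?_ hn
    · rintro _ ⟨y, rfl⟩
      simp [g]
    · intro a b ha hb h1 h2
      have : f' ⟨a + b, add_mem ha hb⟩ = f' ⟨a, ha⟩ + f' ⟨b, hb⟩ := by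
        apply hf.1
        rw [map_add, hf', hf', hf']
        rfl
      rw [map_add, h1, h2, this]
      rfl
    · have : f' ⟨0, zero_mem _⟩ = 0 := by
        apply hf.1
        rw [hf', map_zero]
        rfl
      rw [map_zero, this]
      rfl
    · intro a b ha hb h1 h2
      have : f' ⟨a * b, mul_mem ha hb⟩ = f' ⟨a, ha⟩ * f' ⟨b, hb⟩ := by
        apply hf.1
        rw [map_mul, hf', hf', hf']
        rfl
      rw [map_mul, h1, h2, this]
      rfl
    · intro r a ha h1
      have : f' ⟨r • a, SMulMemClass.smul_mem r ha⟩ = r • f' ⟨a, ha⟩ := by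
        apply hf.1
        rw [map_smul, hf', hf']
        rfl
      rw [map_smul, h1, this]
      rfl
  have he : ∀ t, eps (g t) = eps t := by
    intro t
    have : (eps).comp g = (eps : FreeAlgebra k Y →ₐ[k] k) := by
      apply FreeAlgebra.hom_ext
      funext y
      simp only [Function.comp, AlgHom.comp_apply, eps_ι]
      rw [hgn _ (NonUnitalAlgebra.subset_adjoin k ⟨y, rfl⟩)]
      exact (mem_NF _).1 (f' _).1.2
    rw [← this]; rfl
  have hinj : Function.Injective g := by
    rw [injective_iff_map_eq_zero]
    intro t ht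
    have h1 : eps t = 0 := by rw [← he, ht, map_zero]
    have h2 := (mem_NF t).2 h1
    rw [hgn t h2] at ht
    have h3 : f' ⟨t, h2⟩ = 0 := by
      apply Subtype.ext; apply Subtype.ext; exact ht
    have h4 := hf' ⟨t, h2⟩
    rw [h3, map_zero] at h4
    exact (congrArg Subtype.val h4).symm
  have hrange : g.range = AA k Q := by
    apply le_antisymm
    · rintro _ ⟨t, rfl⟩
      change g t ∈ AA k Q
      induction t using FreeAlgebra.induction with
      | grade0 r => rw [AlgHom.commutes]; exact Subalgebra.algebraMap_mem _ r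
      | grade1 y =>
        rw [hgn _ (NonUnitalAlgebra.subset_adjoin k ⟨y, rfl⟩)]
        exact (mem_A0 _).1 (f' _).2
      | mul a b ha hb => rw [map_mul]; exact mul_mem ha hb
      | add a b ha hb => rw [map_add]; exact add_mem ha hb
    · intro a ha
      have h1 := sub_mem_NF a
      have h2' : a - algebraMap k _ (eps a) ∈ AA k Q :=
        sub_mem ha (Subalgebra.algebraMap_mem _ _)
      have h2 : (⟨_, h1⟩ : NF k (Option Q)) ∈ A0 k Q := (mem_A0 _).2 h2'
      have h3 := hf'' ⟨⟨_, h1⟩, h2⟩
      have h4 := hgn (f ⟨⟨_, h1⟩, h2⟩).1 (f ⟨⟨_, h1⟩, h2⟩).2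
      have h5 : g (f ⟨⟨_, h1⟩, h2⟩).1 = a - algebraMap k _ (eps a) := by
        rw [h4]
        exact congrArg (fun x => x.1.1) h3
      refine ⟨(f ⟨⟨_, h1⟩, h2⟩).1 + algebraMap k _ (eps a), ?_⟩
      change g _ = a
      rw [map_add, AlgHom.commutes, h5]
      abel
  have e1 : FreeAlgebra k Y ≃ₐ[k] g.range := AlgEquiv.ofInjective g hinj
  rw [hrange] at e1
  exact ⟨Y, ⟨e1.symm⟩⟩

omit [AddCommGroup Q] [Module k[X] Q] in
theorem eps_hat (κ : Q →₀ k[X]) : eps (hat κ : Fr k Q) = 0 := by
  rw [hat_eq_sum, Finsupp.sum, map_sum]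
  apply Finset.sum_eq_zero
  intro q _
  rw [map_mul, xx, eps_ι, mul_zero]

theorem eps_gam (E : Set Q) (sec : Q →ₗ[k[X]] (Q →₀ k[X])) (t : FreeAlgebra k (Option Q)) :
    eps (gam E sec t) = eps t := by
  classical
  have : (eps).comp (gam E sec) = (eps : FreeAlgebra k (Option Q) →ₐ[k] k) := by
    apply FreeAlgebra.hom_ext
    funext o
    simp only [Function.comp, AlgHom.comp_apply, eps_ι]
    cases o with
    | none => simp only [gam, FreeAlgebra.lift_ι_apply]; exact eps_ι _
    | some q =>
      simp only [gam, FreeAlgebra.lift_ι_apply]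
      split_ifs with h
      · rw [map_mul, xx, eps_ι, zero_mul]
      · rw [map_sub, eps_hat, xx, eps_ι, sub_zero]
  exact DFunLike.congr_fun this t

variable (k) in
theorem A0_free_finsupp : IsFree0 k (A0 k (ℕ →₀ k[X])) := by
  obtain ⟨E, sec, h1, h2, h3⟩ := section_finsupp k
  exact free0_of (gam E sec) (gam_injective E sec h3) (gam_range E sec h1 h2 h3)
    (eps_gam E sec)

variable (k) in
theorem NF_free (X : Type u) : IsFree0 k (NF k X) :=
  ⟨X, NonUnitalAlgHom.id k _, Function.bijective_id⟩

omit [AddCommGroup Q] [Module k[X] Q] in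
theorem mapN_injective [Nonempty Q] {P : Type u} {g : Q → P} (hg : Function.Injective g) :
    Function.Injective (mapN g : NF k (Option Q) → NF k (Option P)) := by
  intro a b hab
  apply Subtype.ext
  apply mapF_injective hg
  exact congrArg Subtype.val hab

variable (k) in
/-- the embedding -/
noncomputable def emb0 : letI := pair0 (A0 k (ℕ →₀ k[X])); letI := pair0 (A0 k (ℕ → k[X]));
    NF k (Option (ℕ →₀ k[X])) ↪[L0 k] NF k (Option (ℕ → k[X])) := by
  letI := pair0 (A0 k (ℕ →₀ k[X]))
  letI := pair0 (A0 k (ℕ → k[X]))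
  exact
  { toFun := mapN (inc k)
    inj' := mapN_injective inc_injective
    map_fun' := by
      intro n f xs
      apply Subtype.ext
      cases f with
      | zero => exact map_zero (mapF (inc k))
      | neg => exact map_neg (mapF (inc k)) _
      | smul c => exact map_smul (mapF (inc k)) _ _
      | add => exact map_add (mapF (inc k)) _ _
      | mul => exact map_mul (mapF (inc k)) _ _
    map_rel' := by
      intro n r xs
      cases r with
      | P => exact mem_iff (xs 0).1 }

/-- the automorphism -/
noncomputable def aut0 (h : (ℕ → k[X]) ≃ₗ[k[X]] (ℕ → k[X])) :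
    letI := pair0 (A0 k (ℕ → k[X]));
    NF k (Option (ℕ → k[X])) ≃[L0 k] NF k (Option (ℕ → k[X])) := by
  letI := pair0 (A0 k (ℕ → k[X]))
  exact
  { toFun := mapN h
    invFun := mapN h.symm
    left_inv := fun a => Subtype.ext (mapF_symm h a.1)
    right_inv := fun a => Subtype.ext (mapF_symm' h a.1)
    map_fun' := by
      intro n f xs
      apply Subtype.ext
      cases f with
      | zero => exact map_zero (mapF h)
      | neg => exact map_neg (mapF h) _
      | smul c => exact map_smul (mapF h) _ _
      | add => exact map_add (mapF h) _ _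
      | mul => exact map_mul (mapF h) _ _
    map_rel' := by
      intro n r xs
      cases r with
      | P => exact mapF_mem_iff h (xs 0).1 }

variable (k) in
theorem nonunital : ¬ ∃ Th : (L0 k).Theory,
    ∀ (F : Type u) [NonUnitalRing F] [Module k F] [IsScalarTower k F F] [SMulCommClass k F F]
      (A : NonUnitalSubalgebra k F), IsFree0 k F →
      (IsFree0 k A ↔ @Theory.Model (L0 k) F (pair0 A) Th) := by
  classical
  rintro ⟨Th, h⟩
  have h1 := (h (NF k (Option (ℕ →₀ k[X]))) (A0 k (ℕ →₀ k[X])) (NF_free k _)).1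
    (A0_free_finsupp k)
  have h2 : @Theory.Model (L0 k) (NF k (Option (ℕ → k[X]))) (pair0 (A0 k (ℕ → k[X]))) Th := by
    let _ := pair0 (A0 k (ℕ →₀ k[X]))
    let _ := pair0 (A0 k (ℕ → k[X]))
    apply elem_sentence (emb0 k) _ Th h1
    intro s a
    obtain ⟨g, hg1, b, hb⟩ := auto (s.image Subtype.val) a.1
    refine ⟨aut0 g, ?_, ⟨⟨b, ?_⟩, ?_⟩⟩
    · intro x hx
      exact Subtype.ext (hg1 x.1 (Finset.mem_image_of_mem _ hx))
    · rw [mem_NF, ← eps_mapF (inc k) b, hb, eps_mapF]
      exact (mem_NF _).1 a.2
    · exact Subtype.ext hb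
  have h3 := (h (NF k (Option (ℕ → k[X]))) (A0 k (ℕ → k[X])) (NF_free k _)).2 h2
  obtain ⟨Y, ⟨e⟩⟩ := free1_of h3
  exact AA_not_free Y e

end nonunital

end part6

/-- For every field `k`, under the unital and under the non-unital convention, freeness of `A` is
not axiomatizable within the class of all pairs `(F, A)` with `F` a free associative `k`-algebra
and `A` a subalgebra of `F`. -/
theorem result (k : Type u) [Field k] :
    (¬ ∃ Th : (L1 k).Theory,
      ∀ (F : Type u) [Ring F] [Algebra k F] (A : Subalgebra k F), IsFree1 k F →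
        (IsFree1 k A ↔ @Theory.Model (L1 k) F (pair1 A) Th)) ∧
    (¬ ∃ Th : (L0 k).Theory,
      ∀ (F : Type u) [NonUnitalRing F] [Module k F] [IsScalarTower k F F] [SMulCommClass k F F]
        (A : NonUnitalSubalgebra k F), IsFree0 k F →
        (IsFree0 k A ↔ @Theory.Model (L0 k) F (pair0 A) Th)) :=
  ⟨unital k, nonunital k⟩

end Pool.Agent.Results.MP_cfda27_lc.FreeSubalgebra
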